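import Mathlib
import Pool.Agent.Helper543.PlaneC

/-! The upper bound: all but one point on a circle. -/

namespace Pool.Agent.W283.MinCirc

open Finset Pool.Agent.Helper543.Melchior Pool.Agent.Helper543.Blocks
open Pool.Agent.Helper543.PlaneC

noncomputable section

/-- points on the unit circle, in antipodal pairs -/
def w (i : ℕ) : Pt :=
  ((if i % 2 = 0 then 1 else -1) * (1 - ((i / 2 : ℕ) + 1 : ℝ) ^ 2) / (1 + ((i / 2 : ℕ) + 1 : ℝ) ^ 2),
   (if i % 2 = 0 then 1 else -1) * (2 * ((i / 2 : ℕ) + 1 : ℝ)) / (1 + ((i / 2 : ℕ) + 1 : ℝ) ^ 2))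

lemma w_on (i : ℕ) : (w i).1 ^ 2 + (w i).2 ^ 2 = 1 := by
  have h : (1 + ((i / 2 : ℕ) + 1 : ℝ) ^ 2) ≠ 0 := by positivity
  simp only [w]
  split_ifs <;> (field_simp; ring)

lemma w_On (i : ℕ) : On 0 0 1 (w i) := by
  have := w_on i
  simp only [On]; linarith

lemma w_snd_ne (i : ℕ) : (w i).2 ≠ 0 := by
  have h : (0 : ℝ) < 1 + ((i / 2 : ℕ) + 1 : ℝ) ^ 2 := by positivity
  have h2 : (0 : ℝ) < ((i / 2 : ℕ) + 1 : ℝ) := by positivity
  simp only [w]
  split_ifs
  · positivity
  · apply div_ne_zero _ h.ne'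
    nlinarith

lemma w_ne_zero (i : ℕ) : w i ≠ 0 := by
  intro h
  exact w_snd_ne i (by rw [h]; rfl)

lemma w_anti (k : ℕ) : w (2 * k + 1) = - w (2 * k) := by
  have h1 : (2 * k + 1) % 2 = 1 := by omega
  have h2 : (2 * k) % 2 = 0 := by omega
  have h3 : (2 * k + 1) / 2 = k := by omega
  have h4 : (2 * k) / 2 = k := by omega
  simp only [w, h1, h2, h3, h4]
  ext <;> simp <;> ring

lemma w_inj : Function.Injective w := by
  intro i j h
  have hi : (0 : ℝ) < 1 + ((i / 2 : ℕ) + 1 : ℝ) ^ 2 := by positivity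
  have hj : (0 : ℝ) < 1 + ((j / 2 : ℕ) + 1 : ℝ) ^ 2 := by positivity
  have hi2 : (0 : ℝ) < ((i / 2 : ℕ) + 1 : ℝ) := by positivity
  have hj2 : (0 : ℝ) < ((j / 2 : ℕ) + 1 : ℝ) := by positivity
  simp only [w, Prod.mk.injEq] at h
  obtain ⟨h1, h2⟩ := h
  rw [div_eq_div_iff hi.ne' hj.ne'] at h1 h2
  -- same sign
  have par : i % 2 = 0 ↔ j % 2 = 0 := by
    constructor
    · intro hh
      by_contra hcon
      rw [if_pos hh, if_neg hcon] at h2
      have : (0 : ℝ) < 1 * (2 * ((i / 2 : ℕ) + 1 : ℝ)) * (1 + ((j / 2 : ℕ) + 1 : ℝ) ^ 2) := by positivity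
      have : (0 : ℝ) < (2 * ((j / 2 : ℕ) + 1 : ℝ)) * (1 + ((i / 2 : ℕ) + 1 : ℝ) ^ 2) := by positivity
      linarith
    · intro hh
      by_contra hcon
      rw [if_neg hcon, if_pos hh] at h2
      have : (0 : ℝ) < 1 * (2 * ((j / 2 : ℕ) + 1 : ℝ)) * (1 + ((i / 2 : ℕ) + 1 : ℝ) ^ 2) := by positivity
      have : (0 : ℝ) < (2 * ((i / 2 : ℕ) + 1 : ℝ)) * (1 + ((j / 2 : ℕ) + 1 : ℝ) ^ 2) := by positivity
      linarith
  have hsq : ((i / 2 : ℕ) + 1 : ℝ) ^ 2 = ((j / 2 : ℕ) + 1 : ℝ) ^ 2 := by
    by_cases hh : i % 2 = 0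
    · rw [if_pos hh, if_pos (par.1 hh)] at h1
      nlinarith
    · rw [if_neg hh, if_neg (fun h' => hh (par.2 h'))] at h1
      nlinarith
  have heq : ((i / 2 : ℕ) + 1 : ℝ) = ((j / 2 : ℕ) + 1 : ℝ) := by
    rcases sq_eq_sq_iff_eq_or_eq_neg.1 hsq with h | h
    · exact h
    · linarith
  have h5 : i / 2 = j / 2 := by
    have : ((i / 2 : ℕ) : ℝ) = ((j / 2 : ℕ) : ℝ) := by linarith
    exact_mod_cast this
  omega

/-- the points on the circle -/
def circ (m : ℕ) : Finset Pt := (range m).image w

lemma circ_card (m : ℕ) : (circ m).card = m := by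
  rw [circ, card_image_of_injective _ w_inj, card_range]

/-- the whole set -/
def star (m : ℕ) : Finset Pt := insert 0 (circ m)

lemma zero_notMem (m : ℕ) : (0 : Pt) ∉ circ m := by
  simp only [circ, mem_image, not_exists, not_and]
  exact fun i _ h => w_ne_zero i h

lemma star_card (m : ℕ) : (star m).card = m + 1 := by
  rw [star, card_insert_of_notMem (zero_notMem m), circ_card]

lemma not_On_zero : ¬ On 0 0 1 (0 : Pt) := by
  simp [On]

lemma blk_circ {m : ℕ} {a b c : Pt} (ha : a ∈ circ m) (hb : b ∈ circ m) (hc : c ∈ circ m)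
    (hab : a ≠ b) (hac : a ≠ c) (hbc : b ≠ c) : blk (star m) a b c = circ m := by
  obtain ⟨i, _, rfl⟩ := mem_image.1 ha
  obtain ⟨j, _, rfl⟩ := mem_image.1 hb
  obtain ⟨k, _, rfl⟩ := mem_image.1 hc
  have hcr := cr_ne_of_On (w_On i) (w_On j) (w_On k) hab hac hbc
  ext x
  rw [mem_blk, star, mem_insert]
  constructor
  · rintro ⟨rfl | hx, hG⟩
    · exact absurd (On_of_G hcr (w_On i) (w_On j) (w_On k) hG) not_On_zero
    · exact hx
  · intro hx
    refine ⟨Or.inr hx, ?_⟩
    obtain ⟨l, _, rfl⟩ := mem_image.1 hx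
    exact G_of_On (w_On i) (w_On j) (w_On k) (w_On l)

/-- index pairs that are not antipodal -/
def idx (m : ℕ) : Finset (ℕ × ℕ) :=
  (range m ×ˢ range m).filter (fun t => t.1 < t.2 ∧ ¬ (t.1 % 2 = 0 ∧ t.2 = t.1 + 1))

open Classical in
lemma blocks_star (m : ℕ) : blocks (star m) \ lines (star m) ⊆
    insert (circ m) ((idx m).image (fun t => {0, w t.1, w t.2})) := by
  intro B hB
  rw [mem_sdiff] at hB
  obtain ⟨hB, hBl⟩ := hB
  rw [mem_insert]
  by_cases h0 : (0 : Pt) ∈ B
  · right
    obtain ⟨b, hb, c, hc, hb0, hc0, hcb, rfl⟩ := block_first hB h0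
    have hb' : b ∈ circ m := (mem_insert.1 hb).resolve_left hb0
    have hc' : c ∈ circ m := (mem_insert.1 hc).resolve_left hc0
    have hBeq : blk (star m) 0 b c = {0, b, c} := by
      ext x
      simp only [mem_insert, mem_singleton]
      constructor
      · intro hx
        by_contra hcon
        push Not at hcon
        obtain ⟨hx0, hxb, hxc⟩ := hcon
        have hx' : x ∈ circ m :=
          (mem_insert.1 (block_subset hB hx)).resolve_left hx0
        have e := block_third hB (blk_mem2 hb) (blk_mem3 hc) hx hcb hxb hxc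
        rw [blk_circ hb' hc' hx' hcb.symm (Ne.symm hxb) (Ne.symm hxc)] at e
        rw [e] at h0
        exact zero_notMem m h0
      · rintro (rfl | rfl | rfl)
        · exact h0
        · exact blk_mem2 hb
        · exact blk_mem3 hc
    obtain ⟨i, hi, rfl⟩ := mem_image.1 hb'
    obtain ⟨j, hj, rfl⟩ := mem_image.1 hc'
    have hij : i ≠ j := by rintro rfl; exact hcb rfl
    have key : ∀ i j : ℕ, i < j → i % 2 = 0 → j = i + 1 → cr 0 (w i) (w j) = 0 := by
      intro i j _ h1 h2
      obtain ⟨k, rfl⟩ : ∃ k, i = 2 * k := ⟨i / 2, by omega⟩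
      rw [h2, w_anti]
      simp only [cr, Prod.fst_zero, Prod.snd_zero, Prod.fst_neg, Prod.snd_neg]
      ring
    have hncr : cr 0 (w i) (w j) ≠ 0 := by
      intro h
      apply hBl
      exact block_mem_lines hB (blk_mem1 (mem_insert_self _ _)) (blk_mem2 hb) (blk_mem3 hc)
        hb0.symm hc0 hcb h
    rw [mem_image]
    rcases lt_or_gt_of_ne hij with h | h
    · refine ⟨(i, j), ?_, hBeq.symm⟩
      simp only [idx, mem_filter, mem_product]
      exact ⟨⟨hi, hj⟩, h, fun hh => hncr (key i j h hh.1 hh.2)⟩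
    · refine ⟨(j, i), ?_, ?_⟩
      · simp only [idx, mem_filter, mem_product]
        refine ⟨⟨hj, hi⟩, h, fun hh => hncr ?_⟩
        have := key j i h hh.1 hh.2
        simp only [cr] at this ⊢
        linarith
      · rw [hBeq]; ext x; simp only [mem_insert, mem_singleton]; tauto
  · left
    obtain ⟨a, ha, b, hb, c, hc, hab, hac, hbc, rfl⟩ := mem_blocks.1 hB
    have h1 : a ≠ 0 := by rintro rfl; exact h0 (blk_mem1 ha)
    have h2 : b ≠ 0 := by rintro rfl; exact h0 (blk_mem2 hb)
    have h3 : c ≠ 0 := by rintro rfl; exact h0 (blk_mem3 hc)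
    exact blk_circ ((mem_insert.1 ha).resolve_left h1) ((mem_insert.1 hb).resolve_left h2)
      ((mem_insert.1 hc).resolve_left h3) hab hac hbc

lemma idx_card (m : ℕ) : (idx m).card + m / 2 = m.choose 2 := by
  have h1 : ((range m ×ˢ range m).filter (fun t => t.1 < t.2)).card = m.choose 2 := by
    induction m with
    | zero => rfl
    | succ k ih =>
      have e : (range (k + 1) ×ˢ range (k + 1)).filter (fun t => t.1 < t.2) =
          (range k ×ˢ range k).filter (fun t => t.1 < t.2) ∪ (range k).image (fun i => (i, k)) := by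
        ext ⟨a, b⟩
        simp only [mem_filter, mem_product, mem_range, mem_union, mem_image, Prod.mk.injEq]
        constructor
        · rintro ⟨⟨h1, h2⟩, h3⟩
          by_cases hb : b = k
          · right; exact ⟨a, by omega, rfl, hb.symm⟩
          · left; exact ⟨⟨by omega, by omega⟩, h3⟩
        · rintro (⟨⟨h1, h2⟩, h3⟩ | ⟨i, hi, rfl, rfl⟩)
          · exact ⟨⟨by omega, by omega⟩, h3⟩
          · exact ⟨⟨by omega, by omega⟩, hi⟩
      rw [e, card_union_of_disjoint, ih, card_image_of_injective, card_range,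
        Nat.choose_succ_succ k 1]
      · simp; ring
      · intro a b h; exact (Prod.mk.inj h).1
      · rw [disjoint_left]
        rintro ⟨a, b⟩ h1 h2
        simp only [mem_filter, mem_product, mem_range, mem_image, Prod.mk.injEq] at h1 h2
        obtain ⟨i, _, _, rfl⟩ := h2
        omega
  have h2 : ((range m ×ˢ range m).filter (fun t => t.1 < t.2 ∧ (t.1 % 2 = 0 ∧ t.2 = t.1 + 1))).card
      = m / 2 := by
    have e : (range m ×ˢ range m).filter (fun t => t.1 < t.2 ∧ (t.1 % 2 = 0 ∧ t.2 = t.1 + 1)) =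
        (range (m / 2)).image (fun k => (2 * k, 2 * k + 1)) := by
      ext ⟨a, b⟩
      simp only [mem_filter, mem_product, mem_range, mem_image, Prod.mk.injEq]
      constructor
      · rintro ⟨⟨h1, h2⟩, h3, h4, h5⟩
        exact ⟨a / 2, by omega, by omega, by omega⟩
      · rintro ⟨k, hk, rfl, rfl⟩
        exact ⟨⟨by omega, by omega⟩, by omega, by omega, by omega⟩
    rw [e, card_image_of_injective, card_range]
    intro a b h
    have := (Prod.mk.inj h).1
    omega
  have h3 := card_filter_add_card_filter_not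
    (s := (range m ×ˢ range m).filter (fun t => t.1 < t.2))
    (fun t : ℕ × ℕ => t.1 % 2 = 0 ∧ t.2 = t.1 + 1)
  rw [filter_filter, filter_filter, h2, h1] at h3
  rw [idx]
  omega

/-- the set in the Euclidean plane -/
def starP (m : ℕ) : Finset Plane := (star m).image psi

lemma psi_inj : Function.Injective psi := fun u v e => by rw [← phi_psi u, e, phi_psi]

lemma starP_card (m : ℕ) : (starP m).card = m + 1 := by
  rw [starP, card_image_of_injective _ psi_inj, star_card]

lemma image_phi_psi (S : Finset Pt) : (S.image psi).image phi = S := by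
  rw [image_image]
  have : (phi ∘ psi) = id := by funext x; exact phi_psi x
  rw [this, image_id]

theorem upper (m : ℕ) : (Circles (starP m : Set Plane)).ncard ≤ m.choose 2 + 1 - m / 2 := by
  classical
  rw [ncard_circles, starP, image_phi_psi]
  have h := card_le_card (blocks_star m)
  have h2 := card_insert_le (circ m) ((idx m).image (fun t => ({0, w t.1, w t.2} : Finset Pt)))
  have h3 : ((idx m).image (fun t => ({0, w t.1, w t.2} : Finset Pt))).card ≤ (idx m).card :=
    card_image_le
  have h4 := idx_card m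
  have e : blocks (star m) \ lines (star m) = blocks (star m) \ lines (star m) := rfl
  refine le_trans (le_of_eq ?_) (le_trans h (by omega))
  congr!

theorem starP_admissible (m : ℕ) (hm : 3 ≤ m) : Admissible (starP m : Set Plane) := by
  rw [admissible_iff (starP m) (by rw [starP_card]; omega), starP, image_phi_psi]
  intro B hB
  by_cases h0 : (0 : Pt) ∈ B
  · by_contra hcon
    push Not at hcon
    -- then `B` would contain three points of the circle
    have hw : ∀ i < m, w i ∈ B := fun i hi =>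
      hcon _ (mem_insert_of_mem (mem_image_of_mem w (mem_range.2 hi)))
    have hwc : ∀ i < m, w i ∈ circ m := fun i hi => mem_image_of_mem w (mem_range.2 hi)
    have e := block_third hB (hw 0 (by omega)) (hw 1 (by omega)) (hw 2 (by omega))
      (fun h => by have := w_inj h; omega) (fun h => by have := w_inj h; omega)
      (fun h => by have := w_inj h; omega)
    rw [blk_circ (hwc 0 (by omega)) (hwc 1 (by omega)) (hwc 2 (by omega))
      (fun h => by have := w_inj h; omega) (fun h => by have := w_inj h; omega)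
      (fun h => by have := w_inj h; omega)] at e
    rw [e] at h0
    exact zero_notMem m h0
  · exact ⟨0, mem_insert_self _ _, h0⟩

end

end Pool.Agent.W283.MinCirc
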