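import Mathlib
import Pool.Agent.W283.MinCirc.Upper

/-! Point sets with integer coordinates. -/

namespace Pool.Agent.W283.MinCirc

open Finset Pool.Agent.Helper543.Melchior Pool.Agent.Helper543.Blocks
open Pool.Agent.Helper543.PlaneC

abbrev ZPt := ℤ × ℤ

def crZ (a b c : ZPt) : ℤ := (b.1 - a.1) * (c.2 - a.2) - (b.2 - a.2) * (c.1 - a.1)

def nrmZ (p a : ZPt) : ℤ := (a.1 - p.1) ^ 2 + (a.2 - p.2) ^ 2

def GZ (p a b c : ZPt) : ℤ :=
  (a.1 - p.1) * ((b.2 - p.2) * nrmZ p c - (c.2 - p.2) * nrmZ p b)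
  - (a.2 - p.2) * ((b.1 - p.1) * nrmZ p c - (c.1 - p.1) * nrmZ p b)
  + nrmZ p a * ((b.1 - p.1) * (c.2 - p.2) - (b.2 - p.2) * (c.1 - p.1))

def blkZ (S : Finset ZPt) (a b c : ZPt) : Finset ZPt := S.filter (fun x => GZ a b c x = 0)

/-- the proper circles of an integer set -/
def circZ (S : Finset ZPt) : Finset (Finset ZPt) :=
  ((S ×ˢ S ×ˢ S).filter (fun t => crZ t.1 t.2.1 t.2.2 ≠ 0)).image
    (fun t => blkZ S t.1 t.2.1 t.2.2)

def toR (x : ZPt) : Pt := (x.1, x.2)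

lemma toR_inj : Function.Injective toR := by
  rintro ⟨a, b⟩ ⟨c, d⟩ h
  simp only [toR, Prod.mk.injEq, Int.cast_inj] at h
  exact Prod.ext h.1 h.2

lemma cr_toR (a b c : ZPt) : cr (toR a) (toR b) (toR c) = (crZ a b c : ℝ) := by
  simp only [cr, toR, crZ]; push_cast; ring

lemma G_toR (p a b c : ZPt) : G (toR p) (toR a) (toR b) (toR c) = (GZ p a b c : ℝ) := by
  simp only [G, nrm, toR, GZ, nrmZ]; push_cast; ring

open Classical in
lemma blk_toR (S : Finset ZPt) (a b c : ZPt) :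
    blk (S.image toR) (toR a) (toR b) (toR c) = (blkZ S a b c).image toR := by
  ext x
  simp only [mem_blk, mem_image, blkZ, mem_filter]
  constructor
  · rintro ⟨⟨y, hy, rfl⟩, hG⟩
    rw [G_toR] at hG
    exact ⟨y, ⟨hy, by exact_mod_cast hG⟩, rfl⟩
  · rintro ⟨y, ⟨hy, hG⟩, rfl⟩
    exact ⟨⟨y, hy, rfl⟩, by rw [G_toR, hG]; simp⟩

open Classical in
lemma blocks_toR (S : Finset ZPt) : blocks (S.image toR) \ lines (S.image toR) ⊆
    (circZ S).image (fun b => b.image toR) := by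
  intro B hB
  rw [mem_sdiff] at hB
  obtain ⟨hB, hBl⟩ := hB
  obtain ⟨a, ha, b, hb, c, hc, hab, hac, hbc, rfl⟩ := mem_blocks.1 hB
  have hcr : cr a b c ≠ 0 := by
    intro h0
    exact hBl (block_mem_lines hB (blk_mem1 ha) (blk_mem2 hb) (blk_mem3 hc) hab hac.symm
      hbc.symm h0)
  obtain ⟨a, ha', rfl⟩ := mem_image.1 ha
  obtain ⟨b, hb', rfl⟩ := mem_image.1 hb
  obtain ⟨c, hc', rfl⟩ := mem_image.1 hc
  rw [cr_toR] at hcr
  rw [blk_toR]
  apply mem_image_of_mem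
  rw [circZ, mem_image]
  refine ⟨(a, b, c), ?_, rfl⟩
  rw [mem_filter]
  exact ⟨mem_product.2 ⟨ha', mem_product.2 ⟨hb', hc'⟩⟩, by exact_mod_cast hcr⟩

/-- the set in the Euclidean plane -/
noncomputable def zP (S : Finset ZPt) : Finset Plane := (S.image toR).image psi

lemma zP_card (S : Finset ZPt) : (zP S).card = S.card := by
  rw [zP, card_image_of_injective _ psi_inj, card_image_of_injective _ toR_inj]

theorem zP_upper (S : Finset ZPt) : (Circles (zP S : Set Plane)).ncard ≤ (circZ S).card := by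
  classical
  rw [ncard_circles, zP, image_phi_psi]
  have h := card_le_card (blocks_toR S)
  refine le_trans (le_of_eq ?_) (le_trans h card_image_le)
  congr!

theorem zP_admissible (S : Finset ZPt) (h3 : 3 ≤ S.card)
    (h : ∀ a ∈ S, ∀ b ∈ S, ∀ c ∈ S, a ≠ b → a ≠ c → b ≠ c → ∃ x ∈ S, GZ a b c x ≠ 0) :
    Admissible (zP S : Set Plane) := by
  rw [admissible_iff (zP S) (by rw [zP_card]; exact h3), zP, image_phi_psi]
  intro B hB
  obtain ⟨a, ha, b, hb, c, hc, hab, hac, hbc, rfl⟩ := mem_blocks.1 hB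
  obtain ⟨a, ha', rfl⟩ := mem_image.1 ha
  obtain ⟨b, hb', rfl⟩ := mem_image.1 hb
  obtain ⟨c, hc', rfl⟩ := mem_image.1 hc
  obtain ⟨x, hx, hG⟩ := h a ha' b hb' c hc' (fun e => hab (by rw [e])) (fun e => hac (by rw [e]))
    (fun e => hbc (by rw [e]))
  refine ⟨toR x, mem_image_of_mem _ hx, ?_⟩
  rw [mem_blk, G_toR]
  rintro ⟨_, h0⟩
  exact hG (by exact_mod_cast h0)

/-- a triangle with the feet of its altitudes -/
def S6 : Finset ZPt := {(0, 20), (-10, 0), (10, 0), (0, 0), (6, 8), (-6, 8)}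

/-- a triangle with its orthocentre and the feet of its altitudes -/
def S7 : Finset ZPt := {(0, 20), (-10, 0), (10, 0), (0, 0), (6, 8), (-6, 8), (0, 5)}

lemma S6_card : S6.card = 6 := by decide
lemma S7_card : S7.card = 7 := by decide
lemma S6_circ : (circZ S6).card = 8 := by decide +kernel
lemma S7_circ : (circZ S7).card = 11 := by decide +kernel
lemma S6_adm : ∀ a ∈ S6, ∀ b ∈ S6, ∀ c ∈ S6, a ≠ b → a ≠ c → b ≠ c →
    ∃ x ∈ S6, GZ a b c x ≠ 0 := by decide +kernel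
lemma S7_adm : ∀ a ∈ S7, ∀ b ∈ S7, ∀ c ∈ S7, a ≠ b → a ≠ c → b ≠ c →
    ∃ x ∈ S7, GZ a b c x ≠ 0 := by decide +kernel

end Pool.Agent.W283.MinCirc
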