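import Mathlib
import Pool.Agent.Helper543.PlaneC

/-! Counting generalised circles and lines by their number of points, few points. -/

namespace Pool.Agent.W283.MinCirc

open Finset Pool.Agent.Helper543.Count Pool.Agent.Helper543.Bounds Pool.Agent.Helper543.Small

variable {α : Type} [DecidableEq α]

/-- members of `B` with `k` points -/
def nk (B : Finset (Finset α)) (k : ℕ) : ℤ := ((B.filter (fun b => b.card = k)).card : ℤ)

lemma nk_nonneg (B : Finset (Finset α)) (k : ℕ) : 0 ≤ nk B k := by unfold nk; positivity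

lemma sum_by_card (B : Finset (Finset α)) (n : ℕ) (h : ∀ b ∈ B, b.card < n) (f : ℕ → ℤ) :
    ∑ b ∈ B, f b.card = ∑ k ∈ range n, f k * nk B k := by
  rw [← sum_fiberwise_of_maps_to (g := Finset.card) (t := range n)
    (fun b hb => mem_range.2 (h b hb))]
  refine sum_congr rfl fun k _ => ?_
  rw [sum_congr rfl (fun b hb => by rw [(mem_filter.1 hb).2]), sum_const, nsmul_eq_mul, nk]
  ring

lemma nk_eq_zero {B : Finset (Finset α)} {k : ℕ} (h : ∀ b ∈ B, b.card ≠ k) : nk B k = 0 := by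
  unfold nk
  rw [filter_false_of_mem h]
  simp

/-- the number of proper circles by sizes -/
lemma cc_eq (S : Cfg α) : cc S = (S.B.card : ℤ) - ∑ l ∈ S.L, (if 3 ≤ l.card then (1 : ℤ) else 0) := by
  have h := split_B S (fun _ => 1)
  simp only [sum_const, nsmul_eq_mul, mul_one] at h
  unfold cc
  have h2 : ∑ l ∈ S.L, (if (3 : ℤ) ≤ l.card then (1 : ℤ) else 0) =
      ∑ l ∈ S.L, (if 3 ≤ l.card then (1 : ℤ) else 0) := by
    refine sum_congr rfl fun l _ => ?_
    by_cases h3 : 3 ≤ l.card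
    · rw [if_pos h3, if_pos (by exact_mod_cast h3)]
    · rw [if_neg h3, if_neg (by exact_mod_cast h3)]
  rw [h2] at h
  linarith

/-- all relations between the numbers of blocks and lines of given sizes,
if all of them have fewer than `m` points -/
lemma relations (S : Cfg α) (m : ℕ) (hB : ∀ b ∈ S.B, b.card < m) (hL : ∀ l ∈ S.L, l.card < m) :
    (∑ k ∈ range m, ((k : ℤ) * (k - 1) * (k - 2)) * nk S.B k =
      (S.P.card : ℤ) * (S.P.card - 1) * (S.P.card - 2)) ∧
    (∑ k ∈ range m, ((k : ℤ) * (k - 4)) * nk S.B k ≤ -3 * (S.P.card : ℤ)) ∧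
    (∑ k ∈ range m, ((k : ℤ) * (k - 1)) * nk S.L k = (S.P.card : ℤ) * (S.P.card - 1)) ∧
    (∑ k ∈ range m, ((k : ℤ) - 3) * nk S.L k ≤ -3) ∧
    (cc S = ∑ k ∈ range m, nk S.B k - ∑ k ∈ range m, (if 3 ≤ k then (1 : ℤ) else 0) * nk S.L k) ∧
    nk S.B 0 = 0 ∧ nk S.B 1 = 0 ∧ nk S.B 2 = 0 ∧ nk S.L 0 = 0 ∧ nk S.L 1 = 0 := by
  refine ⟨?_, ?_, ?_, ?_, ?_, ?_, ?_, ?_, ?_, ?_⟩
  · rw [← sum_by_card S.B m hB (fun k => (k : ℤ) * (k - 1) * (k - 2))]
    exact Etot S
  · rw [← sum_by_card S.B m hB (fun k => (k : ℤ) * (k - 4))]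
    exact U3tot S
  · rw [← sum_by_card S.L m hL (fun k => (k : ℤ) * (k - 1))]
    exact Epair S
  · rw [← sum_by_card S.L m hL (fun k => (k : ℤ) - 3)]
    exact S.m3
  · rw [cc_eq, ← sum_by_card S.L m hL (fun k => if 3 ≤ k then (1 : ℤ) else 0)]
    have h := sum_by_card S.B m hB (fun _ => 1)
    simp only [sum_const, nsmul_eq_mul, mul_one, one_mul] at h
    rw [h]
  · exact nk_eq_zero fun b hb => by have := S.hB3 b hb; omega
  · exact nk_eq_zero fun b hb => by have := S.hB3 b hb; omega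
  · exact nk_eq_zero fun b hb => by have := S.hB3 b hb; omega
  · exact nk_eq_zero fun b hb => by have := S.hL2 b hb; omega
  · exact nk_eq_zero fun b hb => by have := S.hL2 b hb; omega

/-- a largest block -/
lemma exists_largest (S : Cfg α) (hn : 3 ≤ S.P.card) (hPB : S.P ∉ S.B) :
    ∃ C ∈ S.B, 3 ≤ C.card ∧ (∀ b ∈ S.B, b.card ≤ C.card) ∧ (∀ l ∈ S.L, l.card ≤ C.card) ∧
      C.card < S.P.card := by
  have hBne : S.B.Nonempty := by
    have h2 : 2 < S.P.card := by omega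
    obtain ⟨x, y, z, hx, hy, hz, hxy, hxz, hyz⟩ := two_lt_card_iff.1 h2
    obtain ⟨b, hb, _⟩ := S.ex3 x hx y hy z hz hxy hxz hyz
    exact ⟨b, hb⟩
  obtain ⟨C, hCB, hCmax⟩ := exists_max_image S.B card hBne
  have hC3 := S.hB3 C hCB
  refine ⟨C, hCB, hC3, hCmax, ?_, ?_⟩
  · intro l hl
    by_cases h3 : 3 ≤ l.card
    · exact hCmax l (S.hLB l hl h3)
    · omega
  · apply card_lt_card
    exact (Finset.ssubset_iff_subset_ne).2 ⟨S.hBP C hCB, fun e => hPB (e ▸ hCB)⟩

/-- the case where some generalised circle misses exactly one point -/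
lemma near (S : Cfg α) {C : Finset α} (hC : C ∈ S.B) (hm : ∀ b ∈ S.B, b.card ≤ C.card)
    (hm' : ∀ b ∈ S.L, b.card ≤ C.card) (hn : S.P.card = C.card + 1) : T S.P.card < cc S := by
  by_cases hCL : C ∈ S.L
  · exact nearB S hCL (S.hB3 C hC) hm hm' hn
  · exact nearA S (mem_sdiff.2 ⟨hC, hCL⟩) hm hm' hn

theorem lower4 (S : Cfg α) (hn : S.P.card = 4) (hPB : S.P ∉ S.B) : 3 ≤ cc S := by
  obtain ⟨C, hCB, hC3, hCmax, hL, hlt⟩ := exists_largest S (by omega) hPB
  have h := near S hCB hCmax hL (by omega)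
  rw [hn] at h
  have : T 4 = 2 := by decide
  omega

theorem lower5 (S : Cfg α) (hn : S.P.card = 5) (hPB : S.P ∉ S.B) : 5 ≤ cc S := by
  obtain ⟨C, hCB, hC3, hCmax, hL, hlt⟩ := exists_largest S (by omega) hPB
  by_cases h4 : C.card = 4
  · have h := near S hCB hCmax hL (by omega)
    rw [hn] at h
    have : T 5 = 4 := by decide
    omega
  · have h3 : C.card = 3 := by omega
    obtain ⟨r1, r2, r3, r4, r5, b0, b1, b2, l0, l1⟩ := relations S 4
      (fun b hb => by have := hCmax b hb; omega) (fun b hb => by have := hL b hb; omega)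
    simp only [sum_range_succ, sum_range_zero, hn, b0, b1, b2, l0, l1] at r1 r2 r3 r4 r5
    push_cast at r1 r2 r3 r4 r5
    norm_num at r1 r2 r3 r4 r5
    have p1 := nk_nonneg S.B 3
    have p2 := nk_nonneg S.L 2
    have p3 := nk_nonneg S.L 3
    omega

end Pool.Agent.W283.MinCirc
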