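import Mathlib
import Pool.Agent.Helper543.Blocks

/-! The three opposite quadruples of a real complete quadrilateral are not all concyclic. -/

namespace Pool.Agent.W283.MinCirc

open Pool.Agent.Helper543.Melchior Pool.Agent.Helper543.Blocks

lemma geom_aux {u1 u2 v1 v2 x y s t : ℝ} (hW : u1 * v2 - u2 * v1 ≠ 0) (hx0 : x ≠ 0)
    (hx1 : x ≠ 1) (hy0 : y ≠ 0) (hy1 : y ≠ 1) 
    (f1 : 1 - s = x * (1 - t)) (f2 : s = t * y)
    (q1 : x * (u1 ^ 2 + u2 ^ 2) = y * (v1 ^ 2 + v2 ^ 2))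
    (q2 : (1 - x) * (u1 ^ 2 + u2 ^ 2) = s * ((v1 - u1) ^ 2 + (v2 - u2) ^ 2))
    (q3 : (1 - y) * (v1 ^ 2 + v2 ^ 2) = (1 - s) * ((v1 - u1) ^ 2 + (v2 - u2) ^ 2)) : False := by
  set U := u1 ^ 2 + u2 ^ 2 with hU
  set V := v1 ^ 2 + v2 ^ 2 with hV
  set W := u1 * v1 + u2 * v2 with hWW
  have e : (v1 - u1) ^ 2 + (v2 - u2) ^ 2 = U + V - 2 * W := by rw [hU, hV, hWW]; ring
  rw [e] at q2 q3
  have hUpos : 0 < U := by
    rw [hU]
    by_contra hcon
    have h1 : u1 = 0 := by nlinarith [sq_nonneg u1, sq_nonneg u2]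
    have h2 : u2 = 0 := by nlinarith [sq_nonneg u1, sq_nonneg u2]
    apply hW; rw [h1, h2]; ring
  have hVpos : 0 < V := by
    rw [hV]
    by_contra hcon
    have h1 : v1 = 0 := by nlinarith [sq_nonneg v1, sq_nonneg v2]
    have h2 : v2 = 0 := by nlinarith [sq_nonneg v1, sq_nonneg v2]
    apply hW; rw [h1, h2]; ring
  have k1 : x * U = W := by linarith
  have k2 : y * V = W := by linarith
  have hxy : t * (x - y) = x - 1 := by rw [f2] at f1; linarith
  -- multiply out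
  have hxyne : x - y ≠ 0 := by
    intro h
    rw [h, mul_zero] at hxy
    exact hx1 (by linarith)
  have hs : s * (x - y) = y * (x - 1) := by rw [f2]; linear_combination y * hxy
  have key : (U - W) * (V - W) * (x * y) = 0 := by
    -- from q2: (U - W) = s (U + V - 2 W)
    have q2' : U - W = s * (U + V - 2 * W) := by rw [← k1]; rw [← k1] at q2; linear_combination q2
    have h1 : (U - W) * (x - y) = y * (x - 1) * (U + V - 2 * W) := by
      rw [← hs]; linear_combination (x - y) * q2'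
    -- multiply by U * V
    have h2 : (U - W) * (x * (y * V) - y * (x * U)) = (y * V) * (x * U - U) * x * (U + V - 2 * W) / 1
        - (y * V) * (x * U - U) * x * (U + V - 2 * W) / 1 + (U - W) * (x * y) * (V - U) := by ring
    have h3 : (U - W) * (W * V - W * U) = W * (W - U) * (U + V - 2 * W) := by
      have h4 : (U - W) * (x - y) * (U * V) = y * (x - 1) * (U + V - 2 * W) * (U * V) := by
        rw [h1]
      calc (U - W) * (W * V - W * U) = (U - W) * ((x * U) * V - (y * V) * U) := by rw [k1, k2]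
        _ = (U - W) * (x - y) * (U * V) := by ring
        _ = y * (x - 1) * (U + V - 2 * W) * (U * V) := h4
        _ = (y * V) * (x * U - U) * (U + V - 2 * W) := by ring
        _ = W * (W - U) * (U + V - 2 * W) := by rw [k1, k2]
    have h5 : W * ((U - W) * (V - W)) * 2 = 0 := by linear_combination h3
    have hWne : W ≠ 0 := by rw [← k1]; exact mul_ne_zero hx0 hUpos.ne'
    have h6 : (U - W) * (V - W) = 0 := by
      rcases mul_eq_zero.1 h5 with h | h
      · rcases mul_eq_zero.1 h with h | h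
        · exact absurd h hWne
        · exact h
      · norm_num at h
    rw [h6, zero_mul]
  rcases mul_eq_zero.1 key with h | h
  · rcases mul_eq_zero.1 h with h | h
    · apply hx1
      have : (x - 1) * U = 0 := by linear_combination k1 - h
      rcases mul_eq_zero.1 this with h' | h'
      · linarith
      · exact absurd h' hUpos.ne'
    · apply hy1
      have : (y - 1) * V = 0 := by linear_combination k2 - h
      rcases mul_eq_zero.1 this with h' | h'
      · linarith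
      · exact absurd h' hVpos.ne'
  · rcases mul_eq_zero.1 h with h | h
    · exact hx0 h
    · exact hy0 h

/-- a complete quadrilateral with lines `abc`, `ade`, `bdf`, `cef`: the opposite quadruples are
not all concyclic -/
lemma quad_geom {a b c d e f : Pt} (hnd : cr a b d ≠ 0) (h1 : cr a b c = 0) (h2 : cr a d e = 0)
    (h3 : cr b d f = 0) (h4 : cr c e f = 0) (hca : c ≠ a) (hcb : c ≠ b) (hea : e ≠ a)
    (hed : e ≠ d) (hfb : f ≠ b) (hfd : f ≠ d) (q1 : G b c d e = 0)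
    (q2 : G a c d f = 0) (q3 : G a b e f = 0) : False := by
  have hab : a ≠ b := by rintro rfl; simp [cr] at hnd
  have had : a ≠ d := by rintro rfl; simp [cr] at hnd
  have hbd : b ≠ d := by
    rintro rfl; apply hnd; simp only [cr]; ring
  obtain ⟨x, hx1, hx2⟩ := exists_param hab h1
  obtain ⟨y, hy1, hy2⟩ := exists_param had h2
  obtain ⟨s, hs1, hs2⟩ := exists_param hbd h3
  obtain ⟨a1, a2⟩ := a
  obtain ⟨b1, b2⟩ := b
  obtain ⟨c1, c2⟩ := c
  obtain ⟨d1, d2⟩ := d
  obtain ⟨e1, e2⟩ := e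
  obtain ⟨f1, f2⟩ := f
  simp only at hx1 hx2 hy1 hy2 hs1 hs2
  obtain ⟨u1, rfl⟩ : ∃ u1, b1 = a1 + u1 := ⟨b1 - a1, by ring⟩
  obtain ⟨u2, rfl⟩ : ∃ u2, b2 = a2 + u2 := ⟨b2 - a2, by ring⟩
  obtain ⟨v1, rfl⟩ : ∃ v1, d1 = a1 + v1 := ⟨d1 - a1, by ring⟩
  obtain ⟨v2, rfl⟩ : ∃ v2, d2 = a2 + v2 := ⟨d2 - a2, by ring⟩
  obtain rfl : c1 = a1 + x * u1 := by linarith
  obtain rfl : c2 = a2 + x * u2 := by linarith
  obtain rfl : e1 = a1 + y * v1 := by linarith
  obtain rfl : e2 = a2 + y * v2 := by linarith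
  obtain rfl : f1 = a1 + u1 + s * (v1 - u1) := by linarith
  obtain rfl : f2 = a2 + u2 + s * (v2 - u2) := by linarith
  have hW : u1 * v2 - u2 * v1 ≠ 0 := by
    intro h; apply hnd; simp only [cr]; linear_combination h
  have hx0 : x ≠ 0 := by rintro rfl; apply hca; simp
  have hx1' : x ≠ 1 := by rintro rfl; apply hcb; simp
  have hy0 : y ≠ 0 := by rintro rfl; apply hea; simp
  have hy1' : y ≠ 1 := by rintro rfl; apply hed; simp
  have hs0 : s ≠ 0 := by rintro rfl; apply hfb; simp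
  have hs1' : s ≠ 1 := by rintro rfl; apply hfd; simp
  -- `f` on the line `ce`
  have hfl : ((1 - s) * y + s * x - x * y) * (u1 * v2 - u2 * v1) = 0 := by
    simp only [cr] at h4
    first | linear_combination h4 | linear_combination -h4
  have hfl' : (1 - s) * y + s * x = x * y := by
    rcases mul_eq_zero.1 hfl with h | h
    · linarith
    · exact absurd h hW
  have Q1 : (u1 * v2 - u2 * v1) * (1 - x) * (1 - y) *
      (x * (u1 ^ 2 + u2 ^ 2) - y * (v1 ^ 2 + v2 ^ 2)) = 0 := by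
    simp only [G, nrm] at q1
    first | linear_combination q1 | linear_combination -q1
  have Q2 : (u1 * v2 - u2 * v1) * x * (1 - s) *
      ((1 - x) * (u1 ^ 2 + u2 ^ 2) - s * ((v1 - u1) ^ 2 + (v2 - u2) ^ 2)) = 0 := by
    simp only [G, nrm] at q2
    first | linear_combination q2 | linear_combination -q2
  have Q3 : (u1 * v2 - u2 * v1) * y * s *
      ((1 - y) * (v1 ^ 2 + v2 ^ 2) - (1 - s) * ((v1 - u1) ^ 2 + (v2 - u2) ^ 2)) = 0 := by
    simp only [G, nrm] at q3
    first | linear_combination q3 | linear_combination -q3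
  have r1 := (mul_eq_zero.1 Q1).resolve_left
    (mul_ne_zero (mul_ne_zero hW (sub_ne_zero.2 hx1'.symm)) (sub_ne_zero.2 hy1'.symm))
  have r2 := (mul_eq_zero.1 Q2).resolve_left
    (mul_ne_zero (mul_ne_zero hW hx0) (sub_ne_zero.2 hs1'.symm))
  have r3 := (mul_eq_zero.1 Q3).resolve_left (mul_ne_zero (mul_ne_zero hW hy0) hs0)
  refine geom_aux (t := s / y) hW hx0 hx1' hy0 hy1' ?_ ?_ (sub_eq_zero.1 r1) (sub_eq_zero.1 r2)
    (sub_eq_zero.1 r3)
  · field_simp
    linarith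
  · field_simp

/-- the same with a seventh point `p` at infinity -/
lemma quad_geom' {p a b c d e f : Pt} (hap : a ≠ p) (hbp : b ≠ p) (hcp : c ≠ p) (hdp : d ≠ p)
    (hep : e ≠ p) (hfp : f ≠ p) (hnd : G p a b d ≠ 0) (h1 : G p a b c = 0) (h2 : G p a d e = 0)
    (h3 : G p b d f = 0) (h4 : G p c e f = 0) (hca : c ≠ a) (hcb : c ≠ b) (hea : e ≠ a)
    (hed : e ≠ d) (hfb : f ≠ b) (hfd : f ≠ d) (q1 : G b c d e = 0)
    (q2 : G a c d f = 0) (q3 : G a b e f = 0) : False := by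
  have key : ∀ {w x y z : Pt}, w ≠ p → x ≠ p → y ≠ p → z ≠ p → G w x y z = 0 →
      G (iv p w) (iv p x) (iv p y) (iv p z) = 0 := by
    intro w x y z hw hx hy hz h
    have e1 := (nrm_pos hw).ne'
    have e2 := (nrm_pos hx).ne'
    have e3 := (nrm_pos hy).ne'
    have e4 := (nrm_pos hz).ne'
    have : G (iv p w) (iv p x) (iv p y) (iv p z) * (nrm p w * nrm p x * nrm p y * nrm p z) =
        - G w x y z := by
      obtain ⟨p1, p2⟩ := p
      obtain ⟨w1, w2⟩ := w
      obtain ⟨x1, x2⟩ := x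
      obtain ⟨y1, y2⟩ := y
      obtain ⟨z1, z2⟩ := z
      obtain ⟨w1, rfl⟩ : ∃ t, w1 = p1 + t := ⟨w1 - p1, by ring⟩
      obtain ⟨w2, rfl⟩ : ∃ t, w2 = p2 + t := ⟨w2 - p2, by ring⟩
      obtain ⟨x1, rfl⟩ : ∃ t, x1 = p1 + t := ⟨x1 - p1, by ring⟩
      obtain ⟨x2, rfl⟩ : ∃ t, x2 = p2 + t := ⟨x2 - p2, by ring⟩
      obtain ⟨y1, rfl⟩ : ∃ t, y1 = p1 + t := ⟨y1 - p1, by ring⟩
      obtain ⟨y2, rfl⟩ : ∃ t, y2 = p2 + t := ⟨y2 - p2, by ring⟩
      obtain ⟨z1, rfl⟩ : ∃ t, z1 = p1 + t := ⟨z1 - p1, by ring⟩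
      obtain ⟨z2, rfl⟩ : ∃ t, z2 = p2 + t := ⟨z2 - p2, by ring⟩
      simp only [nrm, add_sub_cancel_left] at e1 e2 e3 e4
      simp only [G, iv, nrm, add_sub_cancel_left]
      field_simp
      ring
    rw [h, neg_zero] at this
    rcases mul_eq_zero.1 this with h' | h'
    · exact h'
    · exact absurd h' (mul_ne_zero (mul_ne_zero (mul_ne_zero e1 e2) e3) e4)
  have ivne : ∀ {x y : Pt}, x ≠ p → y ≠ p → x ≠ y → iv p x ≠ iv p y :=
    fun hx hy hxy h => hxy (iv_inj hx hy h)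
  exact quad_geom (a := iv p a) (b := iv p b) (c := iv p c) (d := iv p d) (e := iv p e)
    (f := iv p f) (fun h => hnd ((cr_iv_eq_zero hap hbp hdp).1 h))
    ((cr_iv_eq_zero hap hbp hcp).2 h1) ((cr_iv_eq_zero hap hdp hep).2 h2)
    ((cr_iv_eq_zero hbp hdp hfp).2 h3) ((cr_iv_eq_zero hcp hep hfp).2 h4)
    (ivne hcp hap hca) (ivne hcp hbp hcb) (ivne hep hap hea) (ivne hep hdp hed)
    (ivne hfp hbp hfb) (ivne hfp hdp hfd) (key hbp hcp hdp hep q1) (key hap hcp hdp hfp q2)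
    (key hap hbp hep hfp q3)

end Pool.Agent.W283.MinCirc
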