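import Mathlib

/-! The complete quadrilateral as a combinatorial structure. -/

namespace Pool.Agent.W283.MinCirc

open Finset

variable {α : Type} [DecidableEq α]

omit [DecidableEq α] in
lemma inj6 {a b c d e f : α} (h : [a, b, c, d, e, f].Nodup) :
    Function.Injective ![a, b, c, d, e, f] := by
  rw [← List.nodup_ofFn]
  exact h

/-- subsets of the range of an injective function on `Fin 6` -/
lemma pull {g : Fin 6 → α} {s : Finset α}
    (hs : s ⊆ univ.image g) : ∃ s' : Finset (Fin 6), s = s'.image g := by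
  refine ⟨univ.filter (fun i => g i ∈ s), ?_⟩
  ext x
  simp only [mem_image, mem_filter, mem_univ, true_and]
  constructor
  · intro hx
    obtain ⟨i, _, rfl⟩ := mem_image.1 (hs hx)
    exact ⟨i, hx, rfl⟩
  · rintro ⟨i, hi, rfl⟩; exact hi

lemma dec1 : ∀ s : Finset (Fin 6), s.card = 3 → 1 ∈ s → (s ∩ {0, 1, 2}).card ≤ 1 →
    (s ∩ {0, 3, 4}).card ≤ 1 → s = {1, 3, 5} ∨ s = {1, 4, 5} := by decide

lemma dec2 : ∀ s : Finset (Fin 6), s.card = 3 → 2 ∈ s → (s ∩ {0, 1, 2}).card ≤ 1 →
    (s ∩ {0, 3, 4}).card ≤ 1 → (s ∩ {1, 3, 5}).card ≤ 1 → s = {2, 4, 5} := by decide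

lemma dec3 : ∀ s : Finset (Fin 6), s.card = 4 → (s ∩ {0, 1, 2}).card ≤ 2 →
    (s ∩ {0, 3, 4}).card ≤ 2 → (s ∩ {1, 3, 5}).card ≤ 2 → (s ∩ {2, 4, 5}).card ≤ 2 →
    s = {1, 2, 3, 4} ∨ s = {0, 2, 3, 5} ∨ s = {0, 1, 4, 5} := by decide

/-- four triples in a set of six points, any two with at most one common point, form a complete
quadrilateral, and three further quadruples are its three opposite quadruples -/
lemma quad {Q : Finset α} {T F : Finset (Finset α)} (hQ : Q.card = 6) (hT : T.card = 4)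
    (hTs : ∀ t ∈ T, t ⊆ Q ∧ t.card = 3) (hTT : ∀ t ∈ T, ∀ t' ∈ T, t ≠ t' → (t ∩ t').card ≤ 1)
    (hF : F.card = 3) (hFs : ∀ f ∈ F, f ⊆ Q ∧ f.card = 4)
    (hTF : ∀ f ∈ F, ∀ t ∈ T, (f ∩ t).card ≤ 2) :
    ∃ g : Fin 6 → α, Function.Injective g ∧ Q = univ.image g ∧ {g 0, g 1, g 2} ∈ T ∧
      {g 0, g 3, g 4} ∈ T ∧ {g 1, g 3, g 5} ∈ T ∧ {g 2, g 4, g 5} ∈ T ∧
      {g 1, g 2, g 3, g 4} ∈ F ∧ {g 0, g 2, g 3, g 5} ∈ F ∧ {g 0, g 1, g 4, g 5} ∈ F := by
  -- every point lies on exactly two triples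
  have hle : ∀ q ∈ Q, (T.filter (fun t => q ∈ t)).card ≤ 2 := by
    intro q hq
    have h1 : ((T.filter (fun t => q ∈ t)).biUnion (fun t => t.erase q)).card =
        ∑ t ∈ T.filter (fun t => q ∈ t), (t.erase q).card := by
      apply card_biUnion
      intro t ht t' ht' hne
      rw [mem_coe, mem_filter] at ht ht'
      rw [Function.onFun, disjoint_left]
      intro x hx hx'
      rw [mem_erase] at hx hx'
      have h2 : ({q, x} : Finset α) ⊆ t ∩ t' := by
        intro y hy
        simp only [mem_insert, mem_singleton] at hy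
        rcases hy with rfl | rfl
        · exact mem_inter.2 ⟨ht.2, ht'.2⟩
        · exact mem_inter.2 ⟨hx.2, hx'.2⟩
      have h3 := card_le_card h2
      rw [card_pair (Ne.symm hx.1)] at h3
      have := hTT t ht.1 t' ht'.1 hne
      omega
    have h2 : (T.filter (fun t => q ∈ t)).biUnion (fun t => t.erase q) ⊆ Q.erase q := by
      intro x hx
      obtain ⟨t, ht, hxt⟩ := mem_biUnion.1 hx
      rw [mem_filter] at ht
      rw [mem_erase] at hxt ⊢
      exact ⟨hxt.1, (hTs t ht.1).1 hxt.2⟩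
    have h3 := card_le_card h2
    have h4 : ∑ t ∈ T.filter (fun t => q ∈ t), (t.erase q).card =
        ∑ t ∈ T.filter (fun t => q ∈ t), 2 := by
      refine sum_congr rfl fun t ht => ?_
      rw [mem_filter] at ht
      rw [card_erase_of_mem ht.2, (hTs t ht.1).2]
    rw [h1, card_erase_of_mem hq, hQ, h4, sum_const, smul_eq_mul] at h3
    omega
  have hsum : ∑ q ∈ Q, (T.filter (fun t => q ∈ t)).card = 12 := by
    simp_rw [card_filter]
    rw [sum_comm]
    have : ∀ t ∈ T, ∑ q ∈ Q, (if q ∈ t then 1 else 0) = 3 := by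
      intro t ht
      rw [← card_filter, filter_mem_eq_inter, inter_eq_right.2 (hTs t ht).1, (hTs t ht).2]
    rw [sum_congr rfl this, sum_const, hT]
    rfl
  have htwo : ∀ q ∈ Q, (T.filter (fun t => q ∈ t)).card = 2 := by
    have h := (sum_eq_sum_iff_of_le hle).1 (by rw [hsum, sum_const, hQ]; rfl)
    exact h
  have another : ∀ t ∈ T, ∀ q ∈ t, ∃ t' ∈ T, q ∈ t' ∧ t' ≠ t := by
    intro t ht q hq
    have h2 := htwo q ((hTs t ht).1 hq)
    obtain ⟨t', ht', hne⟩ := exists_mem_ne (s := T.filter (fun t => q ∈ t)) (by omega) t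
    rw [mem_filter] at ht'
    exact ⟨t', ht'.1, ht'.2, hne⟩
  obtain ⟨t1, ht1⟩ := card_pos.1 (show 0 < T.card by omega)
  obtain ⟨a, b, c, hab, hac, hbc, h1⟩ := card_eq_three.1 (hTs t1 ht1).2
  obtain ⟨t2, ht2, hat2, hne2⟩ := another t1 ht1 a (by rw [h1]; simp)
  have hc2 : (t2.erase a).card = 2 := by rw [card_erase_of_mem hat2, (hTs t2 ht2).2]
  obtain ⟨d, e, hde, h2'⟩ := card_eq_two.1 hc2
  have h2 : t2 = {a, d, e} := by rw [← insert_erase hat2, h2']
  have hnot : ∀ x, x ∈ t1 → x ∈ t2 → x = a := by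
    intro x hx1 hx2
    by_contra hxa
    have h3 : ({a, x} : Finset α) ⊆ t2 ∩ t1 := by
      intro y hy
      simp only [mem_insert, mem_singleton] at hy
      rcases hy with rfl | rfl
      · exact mem_inter.2 ⟨hat2, by rw [h1]; simp⟩
      · exact mem_inter.2 ⟨hx2, hx1⟩
    have h4 := card_le_card h3
    rw [card_pair (Ne.symm hxa)] at h4
    have := hTT t2 ht2 t1 ht1 hne2
    omega
  have had : a ≠ d := by
    intro h
    have : d ∈ t2.erase a := by rw [h2']; simp
    exact (mem_erase.1 this).1 h.symm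
  have hae : a ≠ e := by
    intro h
    have : e ∈ t2.erase a := by rw [h2']; simp
    exact (mem_erase.1 this).1 h.symm
  have hbd : b ≠ d := fun h => hab (hnot b (by rw [h1]; simp) (by rw [h2, h]; simp)).symm
  have hbe : b ≠ e := fun h => hab (hnot b (by rw [h1]; simp) (by rw [h2, h]; simp)).symm
  have hcd : c ≠ d := fun h => hac (hnot c (by rw [h1]; simp) (by rw [h2, h]; simp)).symm
  have hce : c ≠ e := fun h => hac (hnot c (by rw [h1]; simp) (by rw [h2, h]; simp)).symm
  have h5 : ({a, b, c, d, e} : Finset α).card = 5 := by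
    rw [card_insert_of_notMem (by simp [hab, hac, had, hae]),
      card_insert_of_notMem (by simp [hbc, hbd, hbe]),
      card_insert_of_notMem (by simp [hcd, hce]), card_pair hde]
  have h5s : ({a, b, c, d, e} : Finset α) ⊆ Q := by
    intro x hx
    simp only [mem_insert, mem_singleton] at hx
    rcases hx with rfl | rfl | rfl | rfl | rfl
    · exact (hTs t1 ht1).1 (by rw [h1]; simp)
    · exact (hTs t1 ht1).1 (by rw [h1]; simp)
    · exact (hTs t1 ht1).1 (by rw [h1]; simp)
    · exact (hTs t2 ht2).1 (by rw [h2]; simp)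
    · exact (hTs t2 ht2).1 (by rw [h2]; simp)
  have h6 : (Q \ {a, b, c, d, e}).card = 1 := by
    rw [card_sdiff_of_subset h5s, hQ, h5]
  obtain ⟨f, hf⟩ := card_eq_one.1 h6
  have hfQ : f ∈ Q ∧ f ∉ ({a, b, c, d, e} : Finset α) := by
    rw [← mem_sdiff, hf]; simp
  simp only [mem_insert, mem_singleton, not_or] at hfQ
  obtain ⟨hfQ, hfa, hfb, hfc, hfd, hfe⟩ := hfQ
  have hQeq : Q = {a, b, c, d, e, f} := by
    have : Q = {a, b, c, d, e} ∪ (Q \ {a, b, c, d, e}) := (union_sdiff_of_subset h5s).symm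
    rw [this, hf]
    ext x; simp only [mem_union, mem_insert, mem_singleton]; tauto
  -- the statement for a fixed order of `d`, `e`
  have main : ∀ d e : α, a ≠ d → a ≠ e → b ≠ d → b ≠ e → c ≠ d → c ≠ e → d ≠ e → f ≠ d → f ≠ e →
      t2 = {a, d, e} → Q = {a, b, c, d, e, f} → {b, d, f} ∈ T →
      ∃ g : Fin 6 → α, Function.Injective g ∧ Q = univ.image g ∧ {g 0, g 1, g 2} ∈ T ∧
      {g 0, g 3, g 4} ∈ T ∧ {g 1, g 3, g 5} ∈ T ∧ {g 2, g 4, g 5} ∈ T ∧
      {g 1, g 2, g 3, g 4} ∈ F ∧ {g 0, g 2, g 3, g 5} ∈ F ∧ {g 0, g 1, g 4, g 5} ∈ F := by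
    intro d e had hae hbd hbe hcd hce hde hfd hfe h2 hQeq h3
    let g : Fin 6 → α := ![a, b, c, d, e, f]
    have hg : Function.Injective g := by
      apply inj6
      simp [hab, hac, hbc, had, hae, hbd, hbe, hcd, hce, hde, Ne.symm hfa, Ne.symm hfb,
        Ne.symm hfc, Ne.symm hfd, Ne.symm hfe]
    have hQg : Q = univ.image g := by
      rw [hQeq]
      ext x
      simp only [mem_insert, mem_singleton, mem_image, mem_univ, true_and, Fin.exists_fin_succ, g]
      simp [eq_comm]
    have e1 : t1 = ({0, 1, 2} : Finset (Fin 6)).image g := by rw [h1]; simp [image_insert, g]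
    have e2 : t2 = ({0, 3, 4} : Finset (Fin 6)).image g := by rw [h2]; simp [image_insert, g]
    have e3 : ({b, d, f} : Finset α) = ({1, 3, 5} : Finset (Fin 6)).image g := by
      simp [image_insert, g]
    obtain ⟨t4, ht4, hct4, hne4⟩ := another t1 ht1 c (by rw [h1]; simp)
    obtain ⟨s4, hs4⟩ := pull (g := g) (s := t4) (by rw [← hQg]; exact (hTs t4 ht4).1)
    have hcin : ∀ (u v : Finset (Fin 6)), ((u.image g) ∩ (v.image g)).card = (u ∩ v).card := by
      intro u v
      rw [← image_inter _ _ hg, card_image_of_injective _ hg]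
    have hci : ∀ (u : Finset (Fin 6)), (u.image g).card = u.card :=
      fun u => card_image_of_injective _ hg
    have c2 : (2 : Fin 6) ∈ s4 := by
      rw [hs4, mem_image] at hct4
      obtain ⟨i, hi, hgi⟩ := hct4
      have : g i = g 2 := by rw [hgi]; simp [g]
      rw [← hg this]; exact hi
    have hne42 : t4 ≠ t2 := by
      intro h
      rw [h] at hct4
      exact hac (hnot c (by rw [h1]; simp) hct4).symm
    have hne43 : t4 ≠ {b, d, f} := by
      intro h
      rw [h] at hct4
      simp only [mem_insert, mem_singleton] at hct4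
      rcases hct4 with h | h | h
      · exact hbc h.symm
      · exact hcd h
      · exact hfc h.symm
    have k1 := hTT t4 ht4 t1 ht1 hne4
    have k2 := hTT t4 ht4 t2 ht2 hne42
    have k3 := hTT t4 ht4 _ h3 hne43
    rw [hs4, e1, hcin] at k1
    rw [hs4, e2, hcin] at k2
    rw [hs4, e3, hcin] at k3
    have k0 := (hTs t4 ht4).2
    rw [hs4, hci] at k0
    have hs4' := dec2 s4 k0 c2 k1 k2 k3
    have e4 : t4 = ({2, 4, 5} : Finset (Fin 6)).image g := by rw [hs4, hs4']
    -- the quadruples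
    have hsub : F ⊆ {({1, 2, 3, 4} : Finset (Fin 6)).image g, ({0, 2, 3, 5} : Finset (Fin 6)).image g,
        ({0, 1, 4, 5} : Finset (Fin 6)).image g} := by
      intro s hs
      obtain ⟨s', hs'⟩ := pull (g := g) (s := s) (by rw [← hQg]; exact (hFs s hs).1)
      have q0 := (hFs s hs).2
      have q1 := hTF s hs t1 ht1
      have q2 := hTF s hs t2 ht2
      have q3 := hTF s hs _ h3
      have q4 := hTF s hs t4 ht4
      rw [hs', hci] at q0
      rw [hs', e1, hcin] at q1
      rw [hs', e2, hcin] at q2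
      rw [hs', e3, hcin] at q3
      rw [hs', e4, hcin] at q4
      rcases dec3 s' q0 q1 q2 q3 q4 with h | h | h
      · rw [hs', h]; simp
      · rw [hs', h]; simp
      · rw [hs', h]; simp
    have hcard : ({({1, 2, 3, 4} : Finset (Fin 6)).image g,
        ({0, 2, 3, 5} : Finset (Fin 6)).image g,
        ({0, 1, 4, 5} : Finset (Fin 6)).image g} : Finset (Finset α)).card ≤ 3 := card_le_three
    have hFeq := eq_of_subset_of_card_le hsub (by rw [hF]; exact hcard)
    refine ⟨g, hg, hQg, ?_, ?_, ?_, ?_, ?_, ?_, ?_⟩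
    · have : ({g 0, g 1, g 2} : Finset α) = t1 := by rw [e1]; simp [image_insert]
      rw [this]; exact ht1
    · have : ({g 0, g 3, g 4} : Finset α) = t2 := by rw [e2]; simp [image_insert]
      rw [this]; exact ht2
    · have : ({g 1, g 3, g 5} : Finset α) = {b, d, f} := by rw [e3]; simp [image_insert]
      rw [this]; exact h3
    · have : ({g 2, g 4, g 5} : Finset α) = t4 := by rw [e4]; simp [image_insert]
      rw [this]; exact ht4
    · rw [hFeq]; simp [image_insert]
    · rw [hFeq]; simp [image_insert]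
    · rw [hFeq]; simp [image_insert]
  -- the third triple
  obtain ⟨t3, ht3, hbt3, hne3⟩ := another t1 ht1 b (by rw [h1]; simp)
  let g : Fin 6 → α := ![a, b, c, d, e, f]
  have hg : Function.Injective g := by
    apply inj6
    simp [hab, hac, hbc, had, hae, hbd, hbe, hcd, hce, hde, Ne.symm hfa, Ne.symm hfb,
      Ne.symm hfc, Ne.symm hfd, Ne.symm hfe]
  have hQg : Q = univ.image g := by
    rw [hQeq]
    ext x
    simp only [mem_insert, mem_singleton, mem_image, mem_univ, true_and, Fin.exists_fin_succ, g]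
    simp [eq_comm]
  have e1 : t1 = ({0, 1, 2} : Finset (Fin 6)).image g := by rw [h1]; simp [image_insert, g]
  have e2 : t2 = ({0, 3, 4} : Finset (Fin 6)).image g := by rw [h2]; simp [image_insert, g]
  have hcin : ∀ (u v : Finset (Fin 6)), ((u.image g) ∩ (v.image g)).card = (u ∩ v).card := by
    intro u v
    rw [← image_inter _ _ hg, card_image_of_injective _ hg]
  have hci : ∀ (u : Finset (Fin 6)), (u.image g).card = u.card :=
    fun u => card_image_of_injective _ hg
  obtain ⟨s3, hs3⟩ := pull (g := g) (s := t3) (by rw [← hQg]; exact (hTs t3 ht3).1)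
  have c1 : (1 : Fin 6) ∈ s3 := by
    rw [hs3, mem_image] at hbt3
    obtain ⟨i, hi, hgi⟩ := hbt3
    have : g i = g 1 := by rw [hgi]; simp [g]
    rw [← hg this]; exact hi
  have hne32 : t3 ≠ t2 := by
    intro h
    rw [h] at hbt3
    exact hab (hnot b (by rw [h1]; simp) hbt3).symm
  have k1 := hTT t3 ht3 t1 ht1 hne3
  have k2 := hTT t3 ht3 t2 ht2 hne32
  rw [hs3, e1, hcin] at k1
  rw [hs3, e2, hcin] at k2
  have k0 := (hTs t3 ht3).2
  rw [hs3, hci] at k0
  rcases dec1 s3 k0 c1 k1 k2 with h | h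
  · refine main d e had hae hbd hbe hcd hce hde hfd hfe h2 hQeq ?_
    have : ({b, d, f} : Finset α) = t3 := by rw [hs3, h]; simp [image_insert, g]
    rw [this]; exact ht3
  · refine main e d hae had hbe hbd hce hcd hde.symm hfe hfd ?_ ?_ ?_
    · rw [h2, pair_comm]
    · rw [hQeq]; ext x; simp only [mem_insert, mem_singleton]; tauto
    · have : ({b, e, f} : Finset α) = t3 := by rw [hs3, h]; simp [image_insert, g]
      rw [this]; exact ht3

end Pool.Agent.W283.MinCirc
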