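import Mathlib
import Pool.Agent.W283.MinCirc.Count4
import Pool.Agent.W283.MinCirc.Quad
import Pool.Agent.W283.MinCirc.Geom

/-! Six and seven points. -/

namespace Pool.Agent.W283.MinCirc

open Finset Pool.Agent.Helper543.Count Pool.Agent.Helper543.Bounds Pool.Agent.Helper543.Small
open Pool.Agent.Helper543.Melchior Pool.Agent.Helper543.Blocks Pool.Agent.Helper543.PlaneC

lemma notMem_blocks {P : Finset Pt} (hP : ∀ B ∈ blocks P, ∃ x ∈ P, x ∉ B) : P ∉ blocks P := by
  intro h
  obtain ⟨x, hx, hx'⟩ := hP _ h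
  exact hx' hx

lemma cr_of_line {P : Finset Pt} {x y z : Pt} {M : Finset Pt} (hM : M ∈ lines P) (hx : x ∈ M)
    (hy : y ∈ M) (hz : z ∈ M) (hxy : x ≠ y) : cr x y z = 0 := by
  rw [eq_lineOf hM hx hy hxy, mem_lineOf] at hz
  exact hz.2

lemma G_of_block {P : Finset Pt} {w x y z : Pt} {M : Finset Pt} (hM : M ∈ blocks P) (hw : w ∈ M)
    (hx : x ∈ M) (hy : y ∈ M) (hz : z ∈ M) (hwx : w ≠ x) (hwy : w ≠ y) (hxy : x ≠ y) :
    G w x y z = 0 := by
  rw [block_third hM hw hx hy hwx.symm hwy.symm hxy.symm, mem_blk] at hz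
  exact hz.2

theorem lower6 (P : Finset Pt) (hc : P.card = 6) (h3 : 3 ≤ P.card)
    (hP : ∀ B ∈ blocks P, ∃ x ∈ P, x ∉ B) : 8 ≤ cc (cfg P h3 hP) := by
  obtain ⟨C, hCB, hC3, hCmax, hL, hlt⟩ := exists_largest (cfg P h3 hP) h3 (notMem_blocks hP)
  have hSP : (cfg P h3 hP).P.card = 6 := hc
  by_cases h5 : C.card = 5
  · have h := near (cfg P h3 hP) hCB hCmax hL (by omega)
    rw [hSP] at h
    have : T 6 = 8 := by decide
    omega
  have hC4 : C.card ≤ 4 := by omega
  obtain ⟨r1, r2, r3, r4, r5, b0, b1, b2, l0, l1⟩ := relations (cfg P h3 hP) 5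
    (fun b hb => by have := hCmax b hb; omega) (fun b hb => by have := hL b hb; omega)
  simp only [sum_range_succ, sum_range_zero, hSP, b0, b1, b2, l0, l1] at r1 r2 r3 r4 r5
  push_cast at r1 r2 r3 r4 r5
  norm_num at r1 r2 r3 r4 r5
  have p1 := nk_nonneg (cfg P h3 hP).B 3
  have p2 := nk_nonneg (cfg P h3 hP).B 4
  have p3 := nk_nonneg (cfg P h3 hP).L 2
  have p4 := nk_nonneg (cfg P h3 hP).L 3
  have p5 := nk_nonneg (cfg P h3 hP).L 4
  by_contra hcon
  have hb4 : nk (cfg P h3 hP).B 4 = 3 := by omega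
  have hl3 : nk (cfg P h3 hP).L 3 = 4 := by omega
  have hT : ((cfg P h3 hP).L.filter (fun b => b.card = 3)).card = 4 := by
    unfold nk at hl3; exact_mod_cast hl3
  have hF : ((cfg P h3 hP).B.filter (fun b => b.card = 4)).card = 3 := by
    unfold nk at hb4; exact_mod_cast hb4
  obtain ⟨g, hg, hQ, t1, t2, t3, t4, f1, f2, f3⟩ := quad hc hT
    (by
      intro t ht
      rw [mem_filter] at ht
      exact ⟨(cfg P h3 hP).hLP t ht.1, ht.2⟩)
    (by
      intro t ht t' ht' hne
      rw [mem_filter] at ht ht'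
      exact inter_le_one _ ht.1 ht'.1 hne)
    hF
    (by
      intro t ht
      rw [mem_filter] at ht
      exact ⟨(cfg P h3 hP).hBP t ht.1, ht.2⟩)
    (by
      intro f hf t ht
      rw [mem_filter] at hf ht
      apply inter_le_two _ hf.1 ((cfg P h3 hP).hLB t ht.1 (by omega))
      rintro rfl
      omega)
  rw [mem_filter] at t1 t2 t3 t4 f1 f2 f3
  have ne : ∀ i j : Fin 6, i ≠ j → g i ≠ g j := fun i j h h' => h (hg h')
  have hnd : cr (g 0) (g 1) (g 3) ≠ 0 := by
    intro h
    have e := eq_lineOf t1.1 (show g 0 ∈ ({g 0, g 1, g 2} : Finset Pt) by simp)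
      (show g 1 ∈ ({g 0, g 1, g 2} : Finset Pt) by simp) (ne 0 1 (by decide))
    have h' : g 3 ∈ lineOf P (g 0) (g 1) := mem_lineOf.2 ⟨by rw [hQ]; simp, h⟩
    rw [← e] at h'
    simp only [mem_insert, mem_singleton] at h'
    rcases h' with h' | h' | h'
    · exact ne 3 0 (by decide) h'
    · exact ne 3 1 (by decide) h'
    · exact ne 3 2 (by decide) h'
  exact quad_geom (a := g 0) (b := g 1) (c := g 2) (d := g 3) (e := g 4) (f := g 5) hnd
    (cr_of_line t1.1 (by simp) (by simp) (by simp) (ne 0 1 (by decide)))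
    (cr_of_line t2.1 (by simp) (by simp) (by simp) (ne 0 3 (by decide)))
    (cr_of_line t3.1 (by simp) (by simp) (by simp) (ne 1 3 (by decide)))
    (cr_of_line t4.1 (by simp) (by simp) (by simp) (ne 2 4 (by decide)))
    (ne 2 0 (by decide)) (ne 2 1 (by decide)) (ne 4 0 (by decide)) (ne 4 3 (by decide))
    (ne 5 1 (by decide)) (ne 5 3 (by decide))
    (G_of_block f1.1 (by simp) (by simp) (by simp) (by simp) (ne 1 2 (by decide))
      (ne 1 3 (by decide)) (ne 2 3 (by decide)))
    (G_of_block f2.1 (by simp) (by simp) (by simp) (by simp) (ne 0 2 (by decide))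
      (ne 0 3 (by decide)) (ne 2 3 (by decide)))
    (G_of_block f3.1 (by simp) (by simp) (by simp) (by simp) (ne 0 1 (by decide))
      (ne 0 4 (by decide)) (ne 1 4 (by decide)))

variable {α : Type} [DecidableEq α]

/-- local relations at a point -/
lemma local_rel (S : Cfg α) (m : ℕ) (hB : ∀ b ∈ S.B, b.card < m) {p : α} (hp : p ∈ S.P) :
    (∑ k ∈ range m, (((k : ℤ) - 1) * (k - 2)) * nk (S.B.filter (fun b => p ∈ b)) k =
      ((S.P.card : ℤ) - 1) * (S.P.card - 2)) ∧
    (∑ k ∈ range m, ((k : ℤ) - 4) * nk (S.B.filter (fun b => p ∈ b)) k ≤ -3) ∧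
    nk (S.B.filter (fun b => p ∈ b)) 0 = 0 ∧ nk (S.B.filter (fun b => p ∈ b)) 1 = 0 ∧
    nk (S.B.filter (fun b => p ∈ b)) 2 = 0 := by
  have hB' : ∀ b ∈ S.B.filter (fun b => p ∈ b), b.card < m := fun b hb =>
    hB b (mem_filter.1 hb).1
  refine ⟨?_, ?_, ?_, ?_, ?_⟩
  · rw [← sum_by_card _ m hB' (fun k => ((k : ℤ) - 1) * (k - 2))]
    have h := E2 S (C := {p}) (singleton_subset_iff.2 hp)
    have h2 := sum_point S.B {p} (fun b => ((b.card : ℤ) - 1) * (b.card - 2))
    rw [sum_singleton] at h2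
    rw [h2]
    rw [card_singleton] at h
    have e : ∀ b ∈ S.B, ((b ∩ {p}).card : ℤ) * (((b.card : ℤ) - (b ∩ {p}).card) *
        ((b.card : ℤ) - (b ∩ {p}).card - 1)) =
        ((b ∩ {p}).card : ℤ) * (((b.card : ℤ) - 1) * (b.card - 2)) := by
      intro b _
      by_cases hpb : p ∈ b
      · rw [inter_singleton_of_mem hpb, card_singleton]; push_cast; ring
      · rw [inter_singleton_of_notMem hpb, card_empty]; push_cast; ring
    rw [← sum_congr rfl e, h]
    push_cast; ring
  · rw [← sum_by_card _ m hB' (fun k => ((k : ℤ) - 4))]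
    exact S.m1 p hp
  · exact nk_eq_zero fun b hb => by have := S.hB3 b (mem_filter.1 hb).1; omega
  · exact nk_eq_zero fun b hb => by have := S.hB3 b (mem_filter.1 hb).1; omega
  · exact nk_eq_zero fun b hb => by have := S.hB3 b (mem_filter.1 hb).1; omega

lemma sum_local (S : Cfg α) (k : ℕ) : ∑ p ∈ S.P, nk (S.B.filter (fun b => p ∈ b)) k =
    (k : ℤ) * nk S.B k := by
  have h := sum_point S.B S.P (fun b => if b.card = k then 1 else 0)
  have e1 : ∀ p ∈ S.P, ∑ b ∈ S.B with p ∈ b, (if b.card = k then (1 : ℤ) else 0) =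
      nk (S.B.filter (fun b => p ∈ b)) k := by
    intro p _
    unfold nk
    rw [card_filter]
    push_cast
    rfl
  rw [sum_congr rfl e1] at h
  rw [h]
  unfold nk
  rw [card_filter, Nat.cast_sum, mul_sum]
  refine sum_congr rfl fun b hb => ?_
  rw [inter_eq_left.2 (S.hBP b hb)]
  by_cases hk : b.card = k
  · rw [if_pos hk, if_pos hk, hk]; push_cast; ring
  · rw [if_neg hk, if_neg hk]; push_cast; ring

/-- seven points with at most four points on each generalised circle: at most six of these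
carry four points -/
theorem four_le_six (P : Finset Pt) (hc : P.card = 7) (h3 : 3 ≤ P.card)
    (hP : ∀ B ∈ blocks P, ∃ x ∈ P, x ∉ B) (h4 : ∀ b ∈ (cfg P h3 hP).B, b.card < 5)
    (k3 : nk (cfg P h3 hP).B 3 = 7) (k4 : nk (cfg P h3 hP).B 4 = 7) : False := by
  have hSP : (cfg P h3 hP).P.card = 7 := hc
  have loc : ∀ p ∈ P, 3 ≤ nk ((cfg P h3 hP).B.filter (fun b => p ∈ b)) 3 ∧
      nk ((cfg P h3 hP).B.filter (fun b => p ∈ b)) 3 +
      3 * nk ((cfg P h3 hP).B.filter (fun b => p ∈ b)) 4 = 15 := by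
    intro p hp
    obtain ⟨r1, r2, b0, b1, b2⟩ := local_rel (cfg P h3 hP) 5 h4 hp
    simp only [sum_range_succ, sum_range_zero, hSP, b0, b1, b2] at r1 r2
    push_cast at r1 r2
    norm_num at r1 r2
    omega
  have hsum := sum_local (cfg P h3 hP) 3
  rw [k3] at hsum
  have all3 : ∀ p ∈ P, (3 : ℤ) = nk ((cfg P h3 hP).B.filter (fun b => p ∈ b)) 3 := by
    apply (sum_eq_sum_iff_of_le fun p hp => (loc p hp).1).1
    have : ∑ p ∈ P, nk ((cfg P h3 hP).B.filter (fun b => p ∈ b)) 3 = (3 : ℕ) * 7 := hsum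
    rw [this, sum_const, hc]
    rfl
  obtain ⟨p, hp⟩ := card_pos.1 (show 0 < P.card by omega)
  have a3 := all3 p hp
  have a4 : nk ((cfg P h3 hP).B.filter (fun b => p ∈ b)) 4 = 4 := by
    have := (loc p hp).2
    omega
  have hSB : (cfg P h3 hP).B = blocks P := rfl
  set F4 := (blocks P).filter (fun b => b.card = 4) with hF4
  have c4 : F4.card = 7 := by unfold nk at k4; exact_mod_cast k4
  have c4p : (F4.filter (fun b => p ∈ b)).card = 4 := by
    unfold nk at a4
    rw [hSB, filter_comm] at a4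
    exact_mod_cast a4
  have c4n : (F4.filter (fun b => p ∉ b)).card = 3 := by
    have := card_filter_add_card_filter_not (s := F4) (fun b => p ∈ b)
    omega
  have hT : ((F4.filter (fun b => p ∈ b)).image (fun b => b.erase p)).card = 4 := by
    rw [card_image_of_injOn, c4p]
    intro b hb b' hb' h
    simp only [coe_filter, Set.mem_setOf_eq] at hb hb'
    have h' : b.erase p = b'.erase p := h
    rw [← insert_erase hb.2, ← insert_erase hb'.2, h']
  have hQ : (P.erase p).card = 6 := by rw [card_erase_of_mem hp, hc]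
  obtain ⟨g, hg, hQe, t1, t2, t3, t4, f1, f2, f3⟩ := quad hQ hT
    (by
      intro t ht
      obtain ⟨b, hb, rfl⟩ := mem_image.1 ht
      rw [mem_filter, hF4, mem_filter] at hb
      refine ⟨erase_subset_erase p ((cfg P h3 hP).hBP b hb.1.1), ?_⟩
      rw [card_erase_of_mem hb.2, hb.1.2])
    (by
      intro t ht t' ht' hne
      obtain ⟨b, hb, rfl⟩ := mem_image.1 ht
      obtain ⟨b', hb', rfl⟩ := mem_image.1 ht'
      rw [mem_filter, hF4, mem_filter] at hb hb'
      have hbb : b ≠ b' := by rintro rfl; exact hne rfl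
      have h2 := inter_le_two (cfg P h3 hP) hb.1.1 hb'.1.1 hbb
      have e : b.erase p ∩ b'.erase p = (b ∩ b').erase p := by
        ext x; simp only [mem_inter, mem_erase]; tauto
      have : p ∈ b ∩ b' := mem_inter.2 ⟨hb.2, hb'.2⟩
      rw [e, card_erase_of_mem this]
      omega)
    c4n
    (by
      intro f hf
      rw [mem_filter, hF4, mem_filter] at hf
      refine ⟨?_, hf.1.2⟩
      intro x hx
      exact mem_erase.2 ⟨fun e => hf.2 (e ▸ hx), (cfg P h3 hP).hBP f hf.1.1 hx⟩)
    (by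
      intro f hf t ht
      obtain ⟨b, hb, rfl⟩ := mem_image.1 ht
      rw [mem_filter, hF4, mem_filter] at hb hf
      have hfb : f ≠ b := by rintro rfl; exact hf.2 hb.2
      have h2 := inter_le_two (cfg P h3 hP) hf.1.1 hb.1.1 hfb
      exact (card_le_card (inter_subset_inter_left (erase_subset p b))).trans h2)
  have ne : ∀ i j : Fin 6, i ≠ j → g i ≠ g j := fun i j h h' => h (hg h')
  have nep : ∀ i : Fin 6, g i ≠ p := by
    intro i
    have : g i ∈ P.erase p := by rw [hQe]; simp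
    exact (mem_erase.1 this).1
  have blkT : ∀ x y z : Pt, {x, y, z} ∈ (F4.filter (fun b => p ∈ b)).image (fun b => b.erase p) →
      {p, x, y, z} ∈ blocks P := by
    intro x y z h
    obtain ⟨b, hb, he⟩ := mem_image.1 h
    rw [mem_filter, hF4, mem_filter] at hb
    have : ({p, x, y, z} : Finset Pt) = b := by rw [← insert_erase hb.2, he]
    rw [this]; exact hb.1.1
  have b1 := blkT _ _ _ t1
  have b2 := blkT _ _ _ t2
  have b3 := blkT _ _ _ t3
  have b4 := blkT _ _ _ t4
  rw [mem_filter, hF4, mem_filter] at f1 f2 f3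
  have hnd : G p (g 0) (g 1) (g 3) ≠ 0 := by
    intro h
    have e := block_third b1 (x := p) (y := g 0) (z := g 1) (by simp) (by simp) (by simp)
      (nep 0) (nep 1) (ne 1 0 (by decide))
    have h' : g 3 ∈ blk P p (g 0) (g 1) := by
      refine mem_blk.2 ⟨?_, h⟩
      have : g 3 ∈ P.erase p := by rw [hQe]; simp
      exact mem_of_mem_erase this
    rw [← e] at h'
    simp only [mem_insert, mem_singleton] at h'
    rcases h' with h' | h' | h' | h'
    · exact nep 3 h'
    · exact ne 3 0 (by decide) h'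
    · exact ne 3 1 (by decide) h'
    · exact ne 3 2 (by decide) h'
  exact quad_geom' (a := g 0) (b := g 1) (c := g 2) (d := g 3) (e := g 4) (f := g 5)
    (nep 0) (nep 1) (nep 2) (nep 3) (nep 4) (nep 5) hnd
    (G_of_block b1 (by simp) (by simp) (by simp) (by simp) (nep 0).symm (nep 1).symm
      (ne 0 1 (by decide)))
    (G_of_block b2 (by simp) (by simp) (by simp) (by simp) (nep 0).symm (nep 3).symm
      (ne 0 3 (by decide)))
    (G_of_block b3 (by simp) (by simp) (by simp) (by simp) (nep 1).symm (nep 3).symm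
      (ne 1 3 (by decide)))
    (G_of_block b4 (by simp) (by simp) (by simp) (by simp) (nep 2).symm (nep 4).symm
      (ne 2 4 (by decide)))
    (ne 2 0 (by decide)) (ne 2 1 (by decide)) (ne 4 0 (by decide)) (ne 4 3 (by decide))
    (ne 5 1 (by decide)) (ne 5 3 (by decide))
    (G_of_block f1.1.1 (by simp) (by simp) (by simp) (by simp) (ne 1 2 (by decide))
      (ne 1 3 (by decide)) (ne 2 3 (by decide)))
    (G_of_block f2.1.1 (by simp) (by simp) (by simp) (by simp) (ne 0 2 (by decide))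
      (ne 0 3 (by decide)) (ne 2 3 (by decide)))
    (G_of_block f3.1.1 (by simp) (by simp) (by simp) (by simp) (ne 0 1 (by decide))
      (ne 0 4 (by decide)) (ne 1 4 (by decide)))

theorem lower7 (P : Finset Pt) (hc : P.card = 7) (h3 : 3 ≤ P.card)
    (hP : ∀ B ∈ blocks P, ∃ x ∈ P, x ∉ B) : 11 ≤ cc (cfg P h3 hP) := by
  obtain ⟨C, hCB, hC3, hCmax, hL, hlt⟩ := exists_largest (cfg P h3 hP) h3 (notMem_blocks hP)
  have hSP : (cfg P h3 hP).P.card = 7 := hc
  by_cases h6 : C.card = 6
  · have h := near (cfg P h3 hP) hCB hCmax hL (by omega)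
    rw [hSP] at h
    have : T 7 = 12 := by decide
    omega
  by_cases h5 : C.card = 5
  · by_cases hCL : C ∈ (cfg P h3 hP).L
    · have h := LB1B (cfg P h3 hP) hCL hC3 hCmax hL (by omega)
      rw [hSP, h5] at h
      norm_num at h
      omega
    · have h := LB1A (cfg P h3 hP) (mem_sdiff.2 ⟨hCB, hCL⟩) hCmax hL (by omega)
      rw [hSP, h5] at h
      norm_num at h
      omega
  have hC4 : C.card ≤ 4 := by omega
  have hB5 : ∀ b ∈ (cfg P h3 hP).B, b.card < 5 := fun b hb => by
    have := hCmax b hb; omega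
  obtain ⟨r1, r2, r3, r4, r5, b0, b1, b2, l0, l1⟩ := relations (cfg P h3 hP) 5
    hB5 (fun b hb => by have := hL b hb; omega)
  simp only [sum_range_succ, sum_range_zero, hSP, b0, b1, b2, l0, l1] at r1 r2 r3 r4 r5
  push_cast at r1 r2 r3 r4 r5
  norm_num at r1 r2 r3 r4 r5
  have p1 := nk_nonneg (cfg P h3 hP).B 3
  have p2 := nk_nonneg (cfg P h3 hP).B 4
  have p3 := nk_nonneg (cfg P h3 hP).L 2
  have p4 := nk_nonneg (cfg P h3 hP).L 3
  have p5 := nk_nonneg (cfg P h3 hP).L 4
  by_contra hcon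
  have hb4 : nk (cfg P h3 hP).B 4 = 7 := by omega
  have hb3 : nk (cfg P h3 hP).B 3 = 7 := by omega
  exact four_le_six P hc h3 hP hB5 hb3 hb4

end Pool.Agent.W283.MinCirc
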